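import Pool.Agent.Results.MP_b090c9_co.NonagonDensity

/-!
# An open set of convex discs with packing density below the Reinhardt constant

Every convex disc within Hausdorff distance `1 / 40000` of the regular nonagon of inradius
`1 + 1 / 40000` has packing density at most `0.9024`, which is smaller than the Reinhardt constant.
The bound `0.9023` for the regular nonagon itself is `density_le` of the starting file
`NonagonDensity`. New here: the packing density is upper semicontinuous in an explicit form
(`density_mono`), and the passage from the Hausdorff distance to inclusions.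
-/

set_option autoImplicit false
set_option linter.all false

open Real Set Metric MeasureTheory Filter Topology
open scoped Pointwise

namespace Pool.Agent.Results.MP_b090c9_co.OpenSetOfDiscs

open Pool.Agent.Results.MP_b090c9_co.NonagonDensity

/-- isometries of the plane preserve the area -/
theorem volume_image (f : Plane ≃ᵢ Plane) (C : Set Plane) : volume (f '' C) = volume C := by
  set g := f.toRealAffineIsometryEquiv with hg
  have hgf : ∀ x, g x = f x := fun x => by
    rw [hg]; exact congrFun (IsometryEquiv.coeFn_toRealAffineIsometryEquiv f) x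
  set L := g.linearIsometryEquiv with hL
  have hfL : ∀ x, f x = f 0 + L x := by
    intro x
    have h1 := g.map_vadd 0 x
    rw [vadd_eq_add, add_zero, vadd_eq_add] at h1
    rw [← hgf, ← hgf, h1, add_comm]
  have h1 : f '' C = (fun x => f 0 + x) '' (L '' C) := by
    rw [image_image]
    apply image_congr
    intro x _
    exact hfL x
  rw [h1, image_add_left, measure_preimage_add]
  have h2 : L '' C = L.symm ⁻¹' C := by
    ext x
    constructor
    · rintro ⟨y, hy, rfl⟩
      simpa using hy
    · intro hx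
      exact ⟨L.symm x, hx, by simp⟩
  rw [h2]
  exact L.symm.measurePreserving.measure_preimage_emb
    L.symm.toHomeomorph.measurableEmbedding C

/-- a packing with copies of `C` gives a packing with copies of a smaller body `K` -/
theorem density_mono (K C : Set Plane) (hK : (interior K).Nonempty) (hKC : K ⊆ C) (lam : ENNReal)
    (hlam : lam ≠ ⊤) (hvol : volume C ≤ lam * volume K) :
    packingDensity C ≤ lam * packingDensity K := by
  unfold packingDensity
  apply iSup_le
  intro P
  apply iSup_le
  intro hP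
  choose f hf using hP.1
  let g : P → Set Plane := fun D => f D.1 D.2 '' K
  have hgsub : ∀ D : P, g D ⊆ D.1 := by
    intro D
    have h1 : f D.1 D.2 '' K ⊆ f D.1 D.2 '' C := image_mono hKC
    exact h1.trans (hf D.1 D.2).symm.subset
  have hgint : ∀ D : P, (interior (g D)).Nonempty := by
    intro D
    have h1 : interior (g D) = f D.1 D.2 '' interior K :=
      ((f D.1 D.2).toHomeomorph.image_interior K).symm
    rw [h1]
    exact hK.image _
  have hgdisj : ∀ D D' : P, D ≠ D' → Disjoint (interior (g D)) (interior (g D')) := by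
    intro D D' hne
    exact (hP.2 D.1 D.2 D'.1 D'.2 (fun h => hne (Subtype.ext h))).mono
      (interior_mono (hgsub D)) (interior_mono (hgsub D'))
  have hginj : Function.Injective g := by
    intro D D' h
    by_contra hne
    have h1 := hgdisj D D' hne
    rw [h, disjoint_self] at h1
    exact (hgint D').ne_empty h1
  have hP' : IsPacking K (range g) := by
    refine ⟨?_, ?_⟩
    · rintro _ ⟨D, rfl⟩
      exact ⟨f D.1 D.2, rfl⟩
    · rintro _ ⟨D, rfl⟩ _ ⟨D', rfl⟩ hne
      exact hgdisj D D' (fun h => hne (by rw [h]))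
  have key : ∀ r : ℝ,
      (∑' D : {D : Set Plane // D ∈ P ∧ D ⊆ closedBall 0 r}, volume (D : Set Plane)) ≤
      lam * ∑' D : {D : Set Plane // D ∈ range g ∧ D ⊆ closedBall 0 r},
        volume (D : Set Plane) := by
    intro r
    let ι : {D : Set Plane // D ∈ P ∧ D ⊆ closedBall 0 r} →
        {D : Set Plane // D ∈ range g ∧ D ⊆ closedBall 0 r} := fun D =>
      ⟨g ⟨D.1, D.2.1⟩, ⟨⟨D.1, D.2.1⟩, rfl⟩, (hgsub ⟨D.1, D.2.1⟩).trans D.2.2⟩
    have hι : Function.Injective ι := by
      intro D D' h
      have h1 : g ⟨D.1, D.2.1⟩ = g ⟨D'.1, D'.2.1⟩ := congrArg Subtype.val h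
      have h2 := hginj h1
      exact Subtype.ext (show D.1 = D'.1 from congrArg (fun z : P => (z : Set Plane)) h2)
    rw [← ENNReal.tsum_mul_left]
    refine le_trans ?_ (ENNReal.tsum_comp_le_tsum_of_injective hι
      (fun D : {D : Set Plane // D ∈ range g ∧ D ⊆ closedBall 0 r} =>
        lam * volume (D : Set Plane)))
    apply ENNReal.tsum_le_tsum
    intro D
    have h1 : volume (D : Set Plane) = volume C := by
      have h2 : (D : Set Plane) = f D.1 D.2.1 '' C := hf D.1 D.2.1
      rw [h2, volume_image]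
    have h3 : volume ((ι D : Set Plane)) = volume K := volume_image (f D.1 D.2.1) K
    rw [h1, h3]
    exact hvol
  have h4 : upperDensity P ≤ lam * upperDensity (range g) := by
    unfold upperDensity
    rw [← ENNReal.limsup_const_mul_of_ne_top hlam]
    refine limsup_le_limsup (Eventually.of_forall fun r => ?_) (by isBoundedDefault)
      (by isBoundedDefault)
    simp only
    rw [← mul_div_assoc]
    exact ENNReal.div_le_div_right (key r) _
  refine h4.trans ?_
  gcongr
  exact le_iSup₂_of_le (range g) hP' le_rfl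

/-- linear functionals in polar coordinates -/
theorem functional (f : StrongDual ℝ Plane) : ∃ ρ φ : ℝ, 0 ≤ ρ ∧
    ∀ v : Plane, f v = ρ * (cos φ * v 0 + sin φ * v 1) := by
  set A0 := f (!₂[1, 0] : Plane) with hA0
  set A1 := f (!₂[0, 1] : Plane) with hA1
  set z : ℂ := ⟨A0, A1⟩ with hz
  refine ⟨‖z‖, Complex.arg z, norm_nonneg _, fun v => ?_⟩
  have hre : ‖z‖ * cos (Complex.arg z) = A0 := Complex.norm_mul_cos_arg z
  have him : ‖z‖ * sin (Complex.arg z) = A1 := Complex.norm_mul_sin_arg z
  have h1 : v = v 0 • (!₂[1, 0] : Plane) + v 1 • (!₂[0, 1] : Plane) := by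
    ext i; fin_cases i <;> simp
  conv_lhs => rw [h1]
  rw [map_add, map_smul, map_smul, smul_eq_mul, smul_eq_mul, mul_add, ← mul_assoc, ← mul_assoc,
    hre, him, ← hA0, ← hA1]
  ring

theorem norm_sq (v : Plane) : ‖v‖ ^ 2 = v 0 ^ 2 + v 1 ^ 2 := by
  rw [EuclideanSpace.norm_sq_eq]; simp [Fin.sum_univ_two]

theorem polar_le (φ : ℝ) (v : Plane) : cos φ * v 0 + sin φ * v 1 ≤ ‖v‖ := by
  have h1 := norm_sq v
  have h2 := sin_sq_add_cos_sq φ
  have h3 : (cos φ * v 0 + sin φ * v 1) ^ 2 ≤ ‖v‖ ^ 2 := by
    rw [h1]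
    nlinarith [sq_nonneg (cos φ * v 1 - sin φ * v 0)]
  exact (abs_le_of_sq_le_sq' h3 (norm_nonneg _)).2

/-- the unit disc is contained in the nonagon -/
theorem ball_subset : closedBall (0 : Plane) 1 ⊆ nonagon := by
  intro y hy
  by_contra hyn
  rw [nonagon_eq] at hyn
  obtain ⟨f, u, hf1, hf2⟩ := geometric_hahn_banach_closed_point
    (Pool.Agent.W120.NO.body_convex 0 0)
    (Pool.Agent.W120.NO.body_compact 0 0).isClosed hyn
  obtain ⟨ρ, φ, hρ, hf⟩ := functional f
  obtain ⟨k, hk⟩ := Pool.Agent.W259.Nona.exists_off (φ - 0)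
  have e1 := hf1 _ (Pool.Agent.W120.NO.vtx_mem 0 0 k)
  rw [hf, Pool.Agent.W120.NO.vtx0, Pool.Agent.W120.NO.vtx1] at e1
  have c1 : cos φ * cos (0 + 2 * π / 9 * k) + sin φ * sin (0 + 2 * π / 9 * k)
      = cos (Pool.Agent.W259.Nona.off (φ - 0)) := by
    rw [← cos_sub]; congr 1; linarith
  have f1 : Pool.Agent.W259.Nona.supp (φ - 0) = cos φ * (cos (0 + 2 * π / 9 * k) / cos (π / 9))
      + sin φ * (sin (0 + 2 * π / 9 * k) / cos (π / 9)) := by
    unfold Pool.Agent.W259.Nona.supp; rw [← c1]; ring
  have h1 := Pool.Agent.W259.Nona.supp_ge_one (φ - 0)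
  rw [f1] at h1
  have z0 : (0 : Plane) 0 = 0 := rfl
  have z1 : (0 : Plane) 1 = 0 := rfl
  rw [hf] at hf2
  have h2 := polar_le φ y
  have h3 : ‖y‖ ≤ 1 := by rwa [mem_closedBall, dist_zero_right] at hy
  have h4 : ρ * (cos φ * y 0 + sin φ * y 1) ≤ ρ * 1 :=
    mul_le_mul_of_nonneg_left (h2.trans h3) hρ
  have h5 : ρ * 1 ≤ ρ * (cos φ * (cos (0 + 2 * π / 9 * k) / cos (π / 9))
      + sin φ * (sin (0 + 2 * π / 9 * k) / cos (π / 9))) := mul_le_mul_of_nonneg_left h1 hρ
  simp only [z0, z1, zero_add] at e1 h5
  linarith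

theorem nonagon_convex : Convex ℝ nonagon := by
  rw [nonagon_eq]; exact Pool.Agent.W120.NO.body_convex 0 0

theorem nonagon_compact : IsCompact nonagon := by
  rw [nonagon_eq]; exact Pool.Agent.W120.NO.body_compact 0 0

theorem nonagon_interior : (interior nonagon).Nonempty := by
  rw [nonagon_eq]; exact Pool.Agent.W120.NO.interior_body 0 0

/-- adding a short vector to a point of the nonagon -/
theorem add_mem (a ε : ℝ) (ha : 0 < a) (hε : 0 < ε) {x v : Plane} (hx : x ∈ a • nonagon)
    (hv : ‖v‖ ≤ ε) : x + v ∈ (a + ε) • nonagon := by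
  obtain ⟨n, hn, rfl⟩ := hx
  have hb : ε⁻¹ • v ∈ nonagon := by
    apply ball_subset
    rw [mem_closedBall, dist_zero_right, norm_smul, Real.norm_of_nonneg (by positivity),
      inv_mul_le_iff₀ hε]
    linarith
  have hc := nonagon_convex hn hb (a := a / (a + ε)) (b := ε / (a + ε)) (by positivity)
    (by positivity) (by field_simp)
  refine ⟨_, hc, ?_⟩
  simp only
  rw [smul_add, smul_smul, smul_smul, smul_smul]
  have e1 : (a + ε) * (a / (a + ε)) = a := by field_simp
  have e2 : (a + ε) * (ε / (a + ε)) * ε⁻¹ = 1 := by field_simp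
  rw [e1, e2, one_smul]

/-- the regular nonagon with inradius `1 + 1 / 40000` -/
noncomputable def bigNonagon : Set Plane := (1 + 1 / 40000 : ℝ) • nonagon

theorem bigNonagon_compact : IsCompact bigNonagon := nonagon_compact.smul _

theorem bigNonagon_nonempty : bigNonagon.Nonempty :=
  (nonagon_interior.mono interior_subset).smul_set

/-- convex discs near the nonagon are squeezed between two homothetic nonagons -/
theorem squeeze (C : Set Plane) (hC : Convex ℝ C) (hC2 : IsCompact C) (hne : C.Nonempty)
    (hd : hausdorffDist C bigNonagon ≤ 1 / 40000) :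
    nonagon ⊆ C ∧ C ⊆ (1 + 1 / 20000 : ℝ) • nonagon := by
  have hfin : hausdorffEDist C bigNonagon ≠ ⊤ :=
    hausdorffEDist_ne_top_of_nonempty_of_bounded hne bigNonagon_nonempty hC2.isBounded
      bigNonagon_compact.isBounded
  have hfin' : hausdorffEDist bigNonagon C ≠ ⊤ := by rwa [hausdorffEDist_comm]
  have h1 : ∀ x ∈ C, ∃ y ∈ bigNonagon, dist x y ≤ 1 / 40000 := by
    intro x hx
    obtain ⟨y, hy, hxy⟩ := bigNonagon_compact.exists_infDist_eq_dist bigNonagon_nonempty x
    refine ⟨y, hy, ?_⟩
    rw [← hxy]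
    exact (infDist_le_hausdorffDist_of_mem hx hfin).trans hd
  have h2 : ∀ x ∈ bigNonagon, ∃ y ∈ C, dist x y ≤ 1 / 40000 := by
    intro x hx
    obtain ⟨y, hy, hxy⟩ := hC2.exists_infDist_eq_dist hne x
    refine ⟨y, hy, ?_⟩
    rw [← hxy]
    refine (infDist_le_hausdorffDist_of_mem hx hfin').trans ?_
    rwa [hausdorffDist_comm]
  constructor
  · intro x hx
    by_contra hxC
    obtain ⟨f, u, hf1, hf2⟩ := geometric_hahn_banach_closed_point hC hC2.isClosed hxC
    obtain ⟨ρ, φ, hρ, hf⟩ := functional f
    set e : Plane := !₂[cos φ, sin φ] with he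
    have e0 : e 0 = cos φ := by simp [he]
    have e1 : e 1 = sin φ := by simp [he]
    have hne1 : ‖e‖ = 1 := by
      have h3 : ‖e‖ ^ 2 = 1 := by
        rw [norm_sq, e0, e1]
        linarith [sin_sq_add_cos_sq φ]
      nlinarith [norm_nonneg e]
    have hx' : x + (1 / 40000 : ℝ) • e ∈ bigNonagon := by
      refine add_mem 1 (1 / 40000) one_pos (by norm_num) (by rwa [one_smul]) ?_
      rw [norm_smul, hne1, Real.norm_of_nonneg (by norm_num), mul_one]
    obtain ⟨y, hy, hxy⟩ := h2 _ hx'
    have h3 := hf1 y hy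
    have h4 : f (x + (1 / 40000 : ℝ) • e - y) ≤ ρ * (1 / 40000) := by
      rw [hf]
      apply mul_le_mul_of_nonneg_left _ hρ
      refine (polar_le φ _).trans ?_
      rwa [← dist_eq_norm]
    have h5 : f e = ρ := by
      rw [hf, e0, e1]
      have := sin_sq_add_cos_sq φ
      have h6 : cos φ * cos φ + sin φ * sin φ = 1 := by linarith
      rw [h6, mul_one]
    rw [map_sub, map_add, map_smul, h5, smul_eq_mul] at h4
    linarith
  · intro x hx
    obtain ⟨y, hy, hxy⟩ := h1 x hx
    have h3 := add_mem (1 + 1 / 40000) (1 / 40000) (by norm_num) (by norm_num) (x := y)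
      (v := x - y) hy (by rwa [← dist_eq_norm])
    rw [add_sub_cancel] at h3
    have e : (1 + 1 / 40000 : ℝ) + 1 / 40000 = 1 + 1 / 20000 := by norm_num
    rwa [e] at h3

theorem density_near (C : Set Plane) (h1 : nonagon ⊆ C)
    (h2 : C ⊆ (1 + 1 / 20000 : ℝ) • nonagon) : packingDensity C ≤ ENNReal.ofReal 0.9024 := by
  have hv : volume C ≤ ENNReal.ofReal ((1 + 1 / 20000) ^ 2) * volume nonagon := by
    refine (measure_mono h2).trans ?_
    rw [Measure.addHaar_smul]
    simp
  refine (density_mono nonagon C nonagon_interior h1 _ ENNReal.ofReal_ne_top hv).trans ?_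
  calc ENNReal.ofReal ((1 + 1 / 20000) ^ 2) * packingDensity nonagon
      ≤ ENNReal.ofReal ((1 + 1 / 20000) ^ 2) * ENNReal.ofReal 0.9023 := by
        gcongr
        exact density_le
    _ = ENNReal.ofReal ((1 + 1 / 20000) ^ 2 * 0.9023) := by
        rw [ENNReal.ofReal_mul (by norm_num)]
    _ ≤ ENNReal.ofReal 0.9024 := ENNReal.ofReal_le_ofReal (by norm_num)

theorem deltaR_gt' : 0.9024 < deltaR := by
  unfold deltaR
  have h2 : √2 < 1.41421357 := by
    rw [Real.sqrt_lt' (by norm_num)]; norm_num
  have h2' : 1.4142135 < √2 := by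
    rw [Real.lt_sqrt (by norm_num)]; norm_num
  have hl := Real.log_two_lt_d9
  rw [lt_div_iff₀ (by linarith)]
  linarith

/-- **An open set of convex discs with packing density below the Reinhardt constant.** Let `N` be
the regular nonagon with inradius `1 + 1 / 40000`. It is a convex disc, and every convex disc `C`
whose Hausdorff distance to `N` is at most `1 / 40000` has packing density (over all packings by
congruent copies) at most `0.9024`, which is smaller than the Reinhardt constant. -/
theorem result :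
    (Convex ℝ bigNonagon ∧ IsCompact bigNonagon ∧ (interior bigNonagon).Nonempty) ∧
    (∀ C : Set Plane, Convex ℝ C → IsCompact C → C.Nonempty →
      hausdorffDist C bigNonagon ≤ 1 / 40000 →
      packingDensity C ≤ ENNReal.ofReal 0.9024 ∧ packingDensity C < ENNReal.ofReal deltaR) ∧
    0.9024 < deltaR := by
  refine ⟨⟨nonagon_convex.smul _, bigNonagon_compact, ?_⟩, ?_, deltaR_gt'⟩
  · unfold bigNonagon
    rw [interior_smul₀ (by norm_num)]
    exact nonagon_interior.smul_set
  · intro C hC hC2 hne hd
    obtain ⟨h1, h2⟩ := squeeze C hC hC2 hne hd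
    have h3 := density_near C h1 h2
    refine ⟨h3, h3.trans_lt ?_⟩
    rw [ENNReal.ofReal_lt_ofReal_iff (by linarith [deltaR_gt'])]
    exact deltaR_gt'

end Pool.Agent.Results.MP_b090c9_co.OpenSetOfDiscs
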